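import Mathlib

namespace Pool.Agent.Helper924.MW.Lower

/-- `n` is `(k,s)`-representable: it is a sum of `m` positive integers, `1 ≤ m ≤ s`,
whose product is a perfect `k`-th power. -/
def Rep (k s n : ℕ) : Prop :=
  ∃ m : ℕ, 1 ≤ m ∧ m ≤ s ∧ ∃ x : Fin m → ℕ,
    (∀ i, 0 < x i) ∧ n = ∑ i, x i ∧ ∃ y : ℕ, ∏ i, x i = y ^ k

/-- `G'(k)`: the least `s` such that every sufficiently large `n` is `(k,s)`-representable. -/
noncomputable def GPrime (k : ℕ) : ℕ :=
  sInf {s : ℕ | 1 ≤ s ∧ ∃ N : ℕ, ∀ n : ℕ, N ≤ n → Rep k s n}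

/-! ### A divisor bound -/

theorem aux_pow (K e : ℕ) (hK : 0 < K) : (e + 1) ^ K ≤ K ^ K * 2 * 2 ^ e := by
  have h1 : e + 1 < K * ((e + 1) / K + 1) := by
    have := Nat.lt_mul_div_succ (e + 1) hK
    simpa using this
  have h2 : (e + 1) / K + 1 ≤ 2 ^ ((e + 1) / K) := Nat.lt_two_pow_self
  have h3 : e + 1 ≤ K * 2 ^ ((e + 1) / K) := by
    calc e + 1 ≤ K * ((e + 1) / K + 1) := h1.le
      _ ≤ K * 2 ^ ((e + 1) / K) := Nat.mul_le_mul_left _ h2
  calc (e + 1) ^ K ≤ (K * 2 ^ ((e + 1) / K)) ^ K := Nat.pow_le_pow_left h3 K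
    _ = K ^ K * 2 ^ ((e + 1) / K * K) := by rw [mul_pow, ← pow_mul]
    _ ≤ K ^ K * 2 ^ (e + 1) := by
        apply Nat.mul_le_mul_left
        exact Nat.pow_le_pow_right (by norm_num) (Nat.div_mul_le_self _ _)
    _ = K ^ K * 2 * 2 ^ e := by rw [pow_succ]; ring

/-- For every `K ≥ 1` there is a constant `C` with `d(n)^K ≤ C n` for all `n ≥ 1`. -/
theorem card_divisors_pow_le (K : ℕ) (hK : 0 < K) (n : ℕ) (hn : n ≠ 0) :
    (n.divisors.card) ^ K ≤ (K ^ K * 2) ^ (2 ^ K) * n := by
  rw [Nat.card_divisors hn]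
  set c : ℕ → ℕ := fun q => if q < 2 ^ K then K ^ K * 2 else 1 with hc
  have hc0 : 1 ≤ K ^ K * 2 := by
    have : 0 < K ^ K := Nat.pow_pos hK
    omega
  have key : ∀ q ∈ n.primeFactors, (n.factorization q + 1) ^ K ≤ c q * q ^ n.factorization q := by
    intro q hq
    have hqp : q.Prime := Nat.prime_of_mem_primeFactors hq
    by_cases h : q < 2 ^ K
    · simp only [hc, h, if_true]
      refine (aux_pow K _ hK).trans ?_
      exact Nat.mul_le_mul_left _ (Nat.pow_le_pow_left hqp.two_le _)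
    · simp only [hc, h, if_false, one_mul]
      push Not at h
      calc (n.factorization q + 1) ^ K ≤ (2 ^ n.factorization q) ^ K :=
            Nat.pow_le_pow_left Nat.lt_two_pow_self K
        _ = (2 ^ K) ^ n.factorization q := by rw [← pow_mul, ← pow_mul, mul_comm]
        _ ≤ q ^ n.factorization q := Nat.pow_le_pow_left h _
  calc (∏ q ∈ n.primeFactors, (n.factorization q + 1)) ^ K
      = ∏ q ∈ n.primeFactors, (n.factorization q + 1) ^ K := by rw [Finset.prod_pow]
    _ ≤ ∏ q ∈ n.primeFactors, (c q * q ^ n.factorization q) :=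
        Finset.prod_le_prod' key
    _ = (∏ q ∈ n.primeFactors, c q) * ∏ q ∈ n.primeFactors, q ^ n.factorization q :=
        Finset.prod_mul_distrib
    _ = (∏ q ∈ n.primeFactors, c q) * n := by
        congr 1
        exact Nat.prod_factorization_pow_eq_self hn
    _ ≤ (K ^ K * 2) ^ (2 ^ K) * n := by
        apply Nat.mul_le_mul_right
        have : ∏ q ∈ n.primeFactors, c q
            = ∏ q ∈ n.primeFactors.filter (fun q => q < 2 ^ K), (K ^ K * 2) := by
          rw [Finset.prod_filter]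
        rw [this, Finset.prod_const]
        apply Nat.pow_le_pow_right hc0
        calc (n.primeFactors.filter (fun q => q < 2 ^ K)).card ≤ (Finset.range (2 ^ K)).card := by
              apply Finset.card_le_card
              intro q hq
              simp only [Finset.mem_filter] at hq
              exact Finset.mem_range.mpr hq.2
          _ = 2 ^ K := Finset.card_range _

/-! ### Counting sums of three positive integers with fourth-power product -/

/-- the numbers `n ≤ Y^4` that are sums of three positive integers with product a fourth power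
are contained in this finite set -/
def T (Y : ℕ) : Finset ℕ :=
  (Finset.Icc 1 (Y ^ 3)).biUnion fun m =>
    ((m ^ 4).divisors ×ˢ (m ^ 4).divisors).image fun p => p.1 + p.2 + m ^ 4 / (p.1 * p.2)

theorem mem_T {Y x y z m : ℕ} (hx : 0 < x) (hy : 0 < y) (hz : 0 < z)
    (hm : x * y * z = m ^ 4) (hs : x + y + z ≤ Y ^ 4) : x + y + z ∈ T Y := by
  have hprod : 0 < x * y * z := by positivity
  have hm0 : m ≠ 0 := by
    rintro rfl
    simp at hm
    omega
  have hm4 : m ^ 4 ≠ 0 := pow_ne_zero _ hm0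
  have hle : m ≤ Y ^ 3 := by
    have h1 : m ^ 4 ≤ (Y ^ 3) ^ 4 := by
      rw [← hm]
      calc x * y * z ≤ Y ^ 4 * Y ^ 4 * Y ^ 4 := by
            gcongr <;> omega
        _ = (Y ^ 3) ^ 4 := by ring
    exact (Nat.pow_le_pow_iff_left (by norm_num)).mp h1
  unfold T
  rw [Finset.mem_biUnion]
  refine ⟨m, Finset.mem_Icc.mpr ⟨Nat.one_le_iff_ne_zero.mpr hm0, hle⟩, ?_⟩
  rw [Finset.mem_image]
  refine ⟨(x, y), ?_, ?_⟩
  · rw [Finset.mem_product]
    constructor
    · exact Nat.mem_divisors.mpr ⟨⟨y * z, by rw [← hm]; ring⟩, hm4⟩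
    · exact Nat.mem_divisors.mpr ⟨⟨x * z, by rw [← hm]; ring⟩, hm4⟩
  · have : m ^ 4 / (x * y) = z := by
      rw [← hm]
      exact Nat.mul_div_cancel_left z (by positivity)
    simp only [this]

theorem exists_divisor_bound (K : ℕ) (hK : 0 < K) :
    ∃ C : ℕ, 1 ≤ C ∧ ∀ n : ℕ, n ≠ 0 → (n.divisors.card) ^ K ≤ C * n :=
  ⟨(K ^ K * 2) ^ (2 ^ K), Nat.one_le_pow _ _ (by positivity), card_divisors_pow_le K hK⟩

theorem card_T_le (C : ℕ) (_hC1 : 1 ≤ C)
    (hC : ∀ n : ℕ, n ≠ 0 → (n.divisors.card) ^ 48 ≤ C * n)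
    (Y s : ℕ) (hs : C * Y ≤ s * s) : (T Y).card ≤ Y ^ 3 * s := by
  unfold T
  refine (Finset.card_biUnion_le).trans ?_
  have hbound : ∀ m ∈ Finset.Icc 1 (Y ^ 3),
      (((m ^ 4).divisors ×ˢ (m ^ 4).divisors).image
        fun p => p.1 + p.2 + m ^ 4 / (p.1 * p.2)).card ≤ s := by
    intro m hm
    rw [Finset.mem_Icc] at hm
    refine Finset.card_image_le.trans ?_
    rw [Finset.card_product]
    set d := (m ^ 4).divisors.card with hd
    have hm4 : m ^ 4 ≠ 0 := pow_ne_zero _ (by omega)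
    have h1 : d ^ 48 ≤ C * m ^ 4 := hC _ hm4
    have h2 : m ^ 4 ≤ Y ^ 12 := by
      calc m ^ 4 ≤ (Y ^ 3) ^ 4 := Nat.pow_le_pow_left hm.2 4
        _ = Y ^ 12 := by ring
    have h3 : (d ^ 4) ^ 12 ≤ (C * Y) ^ 12 := by
      calc (d ^ 4) ^ 12 = d ^ 48 := by ring
        _ ≤ C * m ^ 4 := h1
        _ ≤ C * Y ^ 12 := Nat.mul_le_mul_left _ h2
        _ ≤ C ^ 12 * Y ^ 12 := by
            apply Nat.mul_le_mul_right
            exact Nat.le_self_pow (by norm_num) C
        _ = (C * Y) ^ 12 := by rw [mul_pow]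
    have h4 : d ^ 4 ≤ C * Y := (Nat.pow_le_pow_iff_left (by norm_num)).mp h3
    have h5 : (d * d) * (d * d) ≤ s * s := by
      calc (d * d) * (d * d) = d ^ 4 := by ring
        _ ≤ C * Y := h4
        _ ≤ s * s := hs
    exact Nat.mul_self_le_mul_self_iff.mp h5
  calc ∑ m ∈ Finset.Icc 1 (Y ^ 3), _ ≤ ∑ m ∈ Finset.Icc 1 (Y ^ 3), s := Finset.sum_le_sum hbound
    _ = Y ^ 3 * s := by rw [Finset.sum_const, Nat.card_Icc]; simp

/-- If `n` is a sum of at most three positive integers with product a fourth power,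
then one of `n`, `n+1`, `n+2` is a sum of exactly three such integers. -/
theorem rep_three {n : ℕ} (h : Rep 4 3 n) (Y : ℕ) (hY : n + 2 ≤ Y ^ 4) :
    n ∈ T Y ∨ n + 1 ∈ T Y ∨ n + 2 ∈ T Y := by
  obtain ⟨m, hm1, hm3, x, hx, hn, y, hy⟩ := h
  interval_cases m
  · rw [Fin.sum_univ_one] at hn
    rw [Fin.prod_univ_one] at hy
    right; right
    have := mem_T (Y := Y) (x := x 0) (y := 1) (z := 1) (m := y) (hx 0) one_pos one_pos
      (by simpa using hy) (by omega)
    rw [hn]
    exact this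
  · rw [Fin.sum_univ_two] at hn
    rw [Fin.prod_univ_two] at hy
    right; left
    have := mem_T (Y := Y) (x := x 0) (y := x 1) (z := 1) (m := y) (hx 0) (hx 1) one_pos
      (by simpa using hy) (by omega)
    rw [hn]
    exact this
  · rw [Fin.sum_univ_three] at hn
    rw [Fin.prod_univ_three] at hy
    left
    have := mem_T (Y := Y) (x := x 0) (y := x 1) (z := x 2) (m := y) (hx 0) (hx 1) (hx 2)
      hy (by omega)
    rw [hn]
    exact this

/-- Infinitely many `n` are not sums of at most three positive integers with product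
a fourth power. -/
theorem not_eventually_three (N : ℕ) : ∃ n, N ≤ n ∧ ¬ Rep 4 3 n := by
  by_contra hcon
  push Not at hcon
  obtain ⟨C, hC1, hC⟩ := exists_divisor_bound 48 (by norm_num)
  set t := N + 10 with ht
  set Y := C * t ^ 2 with hYdef
  have ht10 : 10 ≤ t := by omega
  have hYpos : 1 ≤ Y := Nat.one_le_iff_ne_zero.mpr (by positivity)
  have hcard : (T Y).card ≤ Y ^ 3 * (C * t) := by
    apply card_T_le C hC1 hC
    rw [hYdef]
    apply le_of_eq
    ring
  have hbig : 3 * (Y ^ 3 * (C * t)) + N + 3 ≤ Y ^ 4 := by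
    have h1 : Y ^ 4 = Y ^ 3 * (C * t) * t := by
      calc Y ^ 4 = Y ^ 3 * Y := by ring
        _ = Y ^ 3 * (C * t ^ 2) := by rw [← hYdef]
        _ = Y ^ 3 * (C * t) * t := by ring
    have h2 : 1 ≤ Y ^ 3 * (C * t) := Nat.one_le_iff_ne_zero.mpr (by positivity)
    rw [h1]
    have h3 : t = 3 + (N + 7) := by omega
    calc 3 * (Y ^ 3 * (C * t)) + N + 3 ≤ 3 * (Y ^ 3 * (C * t)) + 1 * (N + 7) := by omega
      _ ≤ 3 * (Y ^ 3 * (C * t)) + (Y ^ 3 * (C * t)) * (N + 7) := by
          apply Nat.add_le_add_left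
          exact Nat.mul_le_mul_right _ h2
      _ = Y ^ 3 * (C * t) * (3 + (N + 7)) := by ring
      _ = Y ^ 3 * (C * t) * t := by rw [← h3]
  have hsub : Finset.Icc N (Y ^ 4 - 2) ⊆
      (T Y) ∪ ((T Y).image (fun a => a - 1)) ∪ ((T Y).image (fun a => a - 2)) := by
    intro n hn
    rw [Finset.mem_Icc] at hn
    have h := rep_three (hcon n hn.1) Y (by omega)
    simp only [Finset.mem_union, Finset.mem_image]
    rcases h with h | h | h
    · left; left; exact h
    · left; right; exact ⟨n + 1, h, by omega⟩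
    · right; exact ⟨n + 2, h, by omega⟩
  have h1 := Finset.card_le_card hsub
  have h2 : ((T Y) ∪ ((T Y).image (fun a => a - 1)) ∪ ((T Y).image (fun a => a - 2))).card
      ≤ (T Y).card + (T Y).card + (T Y).card := by
    refine (Finset.card_union_le _ _).trans ?_
    refine Nat.add_le_add ((Finset.card_union_le _ _).trans ?_) Finset.card_image_le
    exact Nat.add_le_add le_rfl Finset.card_image_le
  rw [Nat.card_Icc] at h1
  omega

/-! ### Five terms are enough for all large `n` -/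

theorem rep_five {n s a b c d e w : ℕ} (hs : 0 < s) (ha : 0 < a) (hb : 0 < b) (hc : 0 < c)
    (hd : 0 < d) (he : 0 < e) (hn : n = (a + b + c + d) * s + e)
    (hw : a * b * c * d * e = w ^ 4) : Rep 4 5 n := by
  refine ⟨5, by norm_num, le_rfl, ![a * s, b * s, c * s, d * s, e], ?_, ?_, s * w, ?_⟩
  · intro i
    fin_cases i <;> simp <;> omega
  · simp [Fin.sum_univ_five]
    rw [hn]; ring
  · simp [Fin.prod_univ_five]
    calc a * s * (b * s) * (c * s) * (d * s) * e = s ^ 4 * (a * b * c * d * e) := by ring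
      _ = s ^ 4 * w ^ 4 := by rw [hw]
      _ = (s * w) ^ 4 := by ring

theorem eventually_five (n : ℕ) (hn : 17504 ≤ n) : Rep 4 5 n := by
  have h7 : n % 7 < 7 := Nat.mod_lt _ (by norm_num)
  interval_cases h : n % 7
  · exact rep_five (s := (n - 9604) / 7) (a := 1) (b := 1) (c := 1) (d := 4) (e := 9604)
      (w := 14) (by omega) (by norm_num) (by norm_num) (by norm_num) (by norm_num) (by norm_num)
      (by omega) (by norm_num)
  · exact rep_five (s := (n - 64) / 7) (a := 1) (b := 1) (c := 1) (d := 4) (e := 64)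
      (w := 4) (by omega) (by norm_num) (by norm_num) (by norm_num) (by norm_num) (by norm_num)
      (by omega) (by norm_num)
  · exact rep_five (s := (n - 324) / 7) (a := 1) (b := 1) (c := 1) (d := 4) (e := 324)
      (w := 6) (by omega) (by norm_num) (by norm_num) (by norm_num) (by norm_num) (by norm_num)
      (by omega) (by norm_num)
  · exact rep_five (s := (n - 17496) / 7) (a := 1) (b := 1) (c := 2) (d := 3) (e := 17496)
      (w := 18) (by omega) (by norm_num) (by norm_num) (by norm_num) (by norm_num) (by norm_num)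
      (by omega) (by norm_num)
  · exact rep_five (s := (n - 4) / 7) (a := 1) (b := 1) (c := 1) (d := 4) (e := 4)
      (w := 2) (by omega) (by norm_num) (by norm_num) (by norm_num) (by norm_num) (by norm_num)
      (by omega) (by norm_num)
  · exact rep_five (s := (n - 3456) / 7) (a := 1) (b := 1) (c := 2) (d := 3) (e := 3456)
      (w := 12) (by omega) (by norm_num) (by norm_num) (by norm_num) (by norm_num) (by norm_num)
      (by omega) (by norm_num)
  · exact rep_five (s := (n - 216) / 7) (a := 1) (b := 1) (c := 2) (d := 3) (e := 216)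
      (w := 6) (by omega) (by norm_num) (by norm_num) (by norm_num) (by norm_num) (by norm_num)
      (by omega) (by norm_num)

theorem Rep.mono {k s s' n : ℕ} (h : s ≤ s') (hr : Rep k s n) : Rep k s' n := by
  obtain ⟨m, hm1, hm, rest⟩ := hr
  exact ⟨m, hm1, hm.trans h, rest⟩

/-- `G'(4) ≥ 4`. -/
theorem four_le : 4 ≤ GPrime 4 := by
  have hne : {s : ℕ | 1 ≤ s ∧ ∃ N : ℕ, ∀ n : ℕ, N ≤ n → Rep 4 s n}.Nonempty :=
    ⟨5, by norm_num, 17504, eventually_five⟩
  have hmem := Nat.sInf_mem hne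
  by_contra hlt
  push Not at hlt
  obtain ⟨-, N, hN⟩ := hmem
  obtain ⟨n, hn, hnot⟩ := not_eventually_three N
  exact hnot ((hN n hn).mono (by unfold GPrime at hlt; omega))

end Pool.Agent.Helper924.MW.Lower
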