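import Pool.Agent.Helper924.MW.Lower

namespace Pool.Agent.Helper924.MW.Lower

theorem key_three (k : ℕ) (hk : 1 ≤ k) :
    ∃ N0 : ℕ, ∀ N : ℕ, N0 ≤ N → {n : ℕ | 1 ≤ n ∧ n ≤ N ∧ Rep 4 3 n}.ncard * k ≤ N := by
  obtain ⟨C, hC1, hC⟩ := exists_divisor_bound 48 (by norm_num)
  refine ⟨(C * (192 * k) ^ 2 + 10) ^ 4, fun N hN => ?_⟩
  set M := Nat.sqrt (N + 2) with hM
  set Z := Nat.sqrt M with hZ
  obtain ⟨Y, hY⟩ : ∃ Y, Y = Z + 1 := ⟨_, rfl⟩
  have hM1 : M * M ≤ N + 2 := Nat.sqrt_le _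
  have hM2 : N + 2 < (M + 1) * (M + 1) := Nat.lt_succ_sqrt _
  have hZ1 : Z * Z ≤ M := Nat.sqrt_le _
  have hZ2 : M < (Z + 1) * (Z + 1) := Nat.lt_succ_sqrt _
  have hB1 : 10 ^ 4 ≤ (C * (192 * k) ^ 2 + 10) ^ 4 := Nat.pow_le_pow_left (by omega) 4
  have hN2 : 2 ≤ N := by omega
  have hYlow : N + 2 < Y ^ 4 := by
    calc N + 2 < (M + 1) * (M + 1) := hM2
      _ ≤ (Y * Y) * (Y * Y) := by
          rw [hY]; exact Nat.mul_le_mul hZ2 hZ2
      _ = Y ^ 4 := by ring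
  have hZ4 : Z ^ 4 ≤ N + 2 := by
    calc Z ^ 4 = (Z * Z) * (Z * Z) := by ring
      _ ≤ M * M := Nat.mul_le_mul hZ1 hZ1
      _ ≤ N + 2 := hM1
  have hYB : C * (192 * k) ^ 2 + 10 < Y := by
    apply lt_of_pow_lt_pow_left₀ 4 (Nat.zero_le _)
    omega
  have hYZ : Y ≤ 2 * Z := by omega
  have hY4 : Y ^ 4 ≤ 32 * N := by
    calc Y ^ 4 ≤ (2 * Z) ^ 4 := Nat.pow_le_pow_left hYZ 4
      _ = 16 * Z ^ 4 := by ring
      _ ≤ 16 * (N + 2) := Nat.mul_le_mul_left _ hZ4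
      _ ≤ 32 * N := by omega
  set s := Y / (96 * k) with hs
  have h96 : 0 < 96 * k := by omega
  have hs1 : 96 * k * s ≤ Y := Nat.mul_div_le Y (96 * k)
  have hs2 : Y < 96 * k * (s + 1) := Nat.lt_mul_div_succ Y h96
  have h192 : 192 * k ≤ Y := by
    have h1 : 192 * k ≤ (192 * k) ^ 2 := Nat.le_self_pow (by norm_num) _
    have h2 : (192 * k) ^ 2 ≤ C * (192 * k) ^ 2 := Nat.le_mul_of_pos_left _ hC1
    omega
  have hYs : Y ≤ 192 * k * s := by
    have e1 : 96 * k * (s + 1) = 96 * k * s + 96 * k := by ring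
    have e2 : 192 * k * s = 2 * (96 * k * s) := by ring
    rw [e1] at hs2
    rw [e2]
    omega
  have hsC : C * Y ≤ s * s := by
    have h1 : C * Y * (192 * k) ^ 2 ≤ s * s * (192 * k) ^ 2 := by
      calc C * Y * (192 * k) ^ 2 = (C * (192 * k) ^ 2) * Y := by ring
        _ ≤ Y * Y := Nat.mul_le_mul_right _ (by omega)
        _ ≤ (192 * k * s) * (192 * k * s) := Nat.mul_le_mul hYs hYs
        _ = s * s * (192 * k) ^ 2 := by ring
    exact Nat.le_of_mul_le_mul_right h1 (by positivity)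
  have hcard := card_T_le C hC1 hC Y s hsC
  have hsub : {n : ℕ | 1 ≤ n ∧ n ≤ N ∧ Rep 4 3 n} ⊆
      (((T Y) ∪ ((T Y).image (fun a => a - 1)) ∪ ((T Y).image (fun a => a - 2)) : Finset ℕ) : Set ℕ) := by
    intro n hn
    have h := rep_three hn.2.2 Y (by have := hn.2.1; omega)
    rw [Finset.mem_coe]
    simp only [Finset.mem_union, Finset.mem_image]
    rcases h with h | h | h
    · left; left; exact h
    · left; right; exact ⟨n + 1, h, by omega⟩
    · right; exact ⟨n + 2, h, by omega⟩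
  have h1 := Set.ncard_le_ncard hsub (Finset.finite_toSet _)
  rw [Set.ncard_coe_finset] at h1
  have h2 : ((T Y) ∪ ((T Y).image (fun a => a - 1)) ∪ ((T Y).image (fun a => a - 2))).card
      ≤ (T Y).card + (T Y).card + (T Y).card := by
    refine (Finset.card_union_le _ _).trans ?_
    refine Nat.add_le_add ((Finset.card_union_le _ _).trans ?_) Finset.card_image_le
    exact Nat.add_le_add le_rfl Finset.card_image_le
  have h3 : {n : ℕ | 1 ≤ n ∧ n ≤ N ∧ Rep 4 3 n}.ncard ≤ 3 * (Y ^ 3 * s) := by omega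
  have h4 : 32 * ({n : ℕ | 1 ≤ n ∧ n ≤ N ∧ Rep 4 3 n}.ncard * k) ≤ 32 * N := by
    calc 32 * ({n : ℕ | 1 ≤ n ∧ n ≤ N ∧ Rep 4 3 n}.ncard * k)
        ≤ 32 * (3 * (Y ^ 3 * s) * k) :=
          Nat.mul_le_mul_left _ (Nat.mul_le_mul_right _ h3)
      _ = Y ^ 3 * (96 * k * s) := by ring
      _ ≤ Y ^ 3 * Y := Nat.mul_le_mul_left _ hs1
      _ = Y ^ 4 := by ring
      _ ≤ 32 * N := hY4
  omega

/-- the integers that are sums of at most three positive integers with product a fourth power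
have density zero -/
theorem three_density :
    Filter.Tendsto
      (fun N : ℕ => (({n : ℕ | 1 ≤ n ∧ n ≤ N ∧ Rep 4 3 n}.ncard : ℕ) : ℝ) / (N : ℝ))
      Filter.atTop (nhds 0) := by
  rw [Metric.tendsto_atTop]
  intro ε hε
  obtain ⟨k, hk⟩ := exists_nat_one_div_lt hε
  obtain ⟨N0, hN0⟩ := key_three (k + 1) (by omega)
  refine ⟨max N0 1, fun N hN => ?_⟩
  have h1 := hN0 N (le_trans (le_max_left _ _) hN)
  have h2 : 1 ≤ N := le_trans (le_max_right _ _) hN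
  rw [Real.dist_eq, sub_zero, abs_of_nonneg (by positivity)]
  have h3 : (0 : ℝ) < N := by exact_mod_cast h2
  refine lt_of_le_of_lt ?_ hk
  rw [div_le_div_iff₀ h3 (by positivity), one_mul]
  exact_mod_cast h1

theorem le_five : GPrime 4 ≤ 5 :=
  Nat.sInf_le ⟨by norm_num, 17504, eventually_five⟩

end Pool.Agent.Helper924.MW.Lower
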